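import Pool.Agent.L0h45.AV.Stm

/-! Module SQN of project AV (helper76): a point gives a rational zero of `z² = - gh`. -/

set_option autoImplicit false
set_option linter.all false

namespace Pool.Agent.L0h45.AV

open Pool.Agent.N874.PP (Tup chA chB gq tau Ev)
open Pool.Agent.N922.PQ (dsc IsCub JJ Ov vec)

/-- an isotropic vector of `2 x z + y²` -/
lemma isotropic {v : Fin 3 → ℚ} (hv : v ≠ 0) (h : 2 * v 0 * v 2 + v 1 ^ 2 = 0) :
    ∃ (s t : ℤ) (l : ℚ), IsCoprime s t ∧ l ≠ 0 ∧ v 0 = l * (-2 * s ^ 2) ∧ v 1 = l * (2 * s * t) ∧ v 2 = l * t ^ 2 := by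
  by_cases h2 : v 2 = 0
  · have h1 : v 1 = 0 := by
      rw [h2, mul_zero, zero_add] at h
      exact pow_eq_zero_iff (two_ne_zero) |>.1 h
    refine ⟨1, 0, -v 0 / 2, isCoprime_one_left, ?_, ?_, ?_, ?_⟩
    · intro h0
      apply hv
      have : v 0 = 0 := by linarith
      ext i
      fin_cases i
      · exact this
      · exact h1
      · exact h2
    · push_cast; ring
    · rw [h1]; push_cast; ring
    · rw [h2]; push_cast; ring
  · set u : ℚ := v 1 / (2 * v 2) with hu
    have e1 : v 1 = 2 * u * v 2 := by rw [hu]; field_simp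
    have e0 : v 0 = -2 * u ^ 2 * v 2 := by
      have : v 2 * (2 * (v 0 + 2 * u ^ 2 * v 2)) = 0 := by
        rw [e1] at h
        linear_combination h
      rcases mul_eq_zero.1 this with h0 | h0
      · exact absurd h0 h2
      · linarith
    have hd : (u.den : ℚ) ≠ 0 := by exact_mod_cast u.den_nz
    have hnd : u = (u.num : ℚ) / (u.den : ℚ) := (Rat.num_div_den u).symm
    refine ⟨u.num, (u.den : ℤ), v 2 / (u.den : ℚ) ^ 2, ?_, ?_, ?_, ?_, ?_⟩
    · exact Rat.isCoprime_num_den u
    · exact div_ne_zero h2 (pow_ne_zero 2 hd)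
    · rw [e0]
      conv_lhs => rw [hnd]
      push_cast
      field_simp
    · rw [e1]
      conv_lhs => rw [hnd]
      push_cast
      field_simp
    · push_cast
      field_simp

theorem t_SQN : S_SQN := by
  intro L _ _ a b θ h x B hrel
  obtain ⟨e, hli, h2, h1⟩ := hrel
  set α : L := (x : L) - θ with hαd
  have hcard : Fintype.card (Fin 3) = Module.finrank ℚ L := by rw [h.rank]; rfl
  have hα : α ≠ 0 := by
    intro h0
    have h3 := h2 0 2
    rw [h0, div_zero, map_zero] at h3
    simp [JJ] at h3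
  set bs := basisOfLinearIndependentOfCardEqFinrank hli hcard with hbs
  set v : Fin 3 → ℚ := fun i => bs.repr α i with hvd
  have hv : α = ∑ i, v i • e i := by
    have := bs.sum_repr α
    rw [hbs] at this
    simp only [coe_basisOfLinearIndependentOfCardEqFinrank] at this
    exact this.symm
  have key : ∑ i, ∑ j, (v i * v j) • (e i * e j / α) = α := by
    have h3 : ∑ i, ∑ j, (v i * v j) • (e i * e j / α) = (∑ i, v i • e i) * (∑ j, v j • e j) / α := by
      rw [Finset.sum_mul_sum, Finset.sum_div]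
      refine Finset.sum_congr rfl fun i _ => ?_
      rw [Finset.sum_div]
      refine Finset.sum_congr rfl fun j _ => ?_
      simp only [Rat.smul_def]
      push_cast
      ring
    rw [h3, ← hv, mul_div_assoc, div_self hα, mul_one]
  have hα' : α = x • h.basis 0 - h.basis 1 := by
    rw [h.basis_apply, h.basis_apply, hαd]
    simp [vec, Rat.smul_def]
  have c2 : h.co 2 α = 0 := by
    rw [hα']
    simp [IsCub.co]
  have c1 : h.co 1 α = -1 := by
    rw [hα']
    simp [IsCub.co]
  have g2 : ∑ i, ∑ j, (v i * v j) * (JJ i j : ℚ) = 0 := by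
    rw [← c2]
    conv_rhs => rw [← key]
    rw [map_sum]
    refine Finset.sum_congr rfl fun i _ => ?_
    rw [map_sum]
    refine Finset.sum_congr rfl fun j _ => ?_
    rw [map_smul, h2, smul_eq_mul]
  have g1 : ∑ i, ∑ j, (v i * v j) * ((mt B i j : ℤ) : ℚ) = -1 := by
    rw [← c1]
    conv_rhs => rw [← key]
    rw [map_sum]
    refine Finset.sum_congr rfl fun i _ => ?_
    rw [map_sum]
    refine Finset.sum_congr rfl fun j _ => ?_
    rw [map_smul, h1, smul_eq_mul]
  have hv0 : v ≠ 0 := by
    intro h0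
    apply hα
    rw [hv]
    simp [h0]
  obtain ⟨s, t, l, hst, hl, e0, e1, e2⟩ := isotropic hv0 (by
    simp only [Fin.sum_univ_three, JJ, Matrix.of_apply, Matrix.cons_val_zero, Matrix.cons_val_one, Matrix.cons_val] at g2
    push_cast at g2
    linarith)
  have g3 : l ^ 2 * ((gh B s t : ℤ) : ℚ) = -1 := by
    rw [← g1]
    simp only [Fin.sum_univ_three, mt, gh, Matrix.of_apply, Matrix.cons_val_zero, Matrix.cons_val_one, Matrix.cons_val]
    push_cast
    rw [e0, e1, e2]
    ring
  have g4 : ((-(gh B s t) : ℤ) : ℚ) = (1 / l) * (1 / l) := by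
    push_cast
    field_simp
    linarith
  have g5 : IsSquare (-(gh B s t)) := by
    rw [← Rat.isSquare_intCast_iff]
    exact ⟨1 / l, g4⟩
  obtain ⟨n, hn⟩ := g5
  refine ⟨s, t, n, hst, ?_⟩
  rw [sq, ← hn, neg_neg]

end Pool.Agent.L0h45.AV
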