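import Pool.Agent.L0h45.AV.Stm

/-! Module UNI of project AV (helper76): the zero in the upper half plane is unique. -/

set_option autoImplicit false
set_option linter.all false

namespace Pool.Agent.L0h45.AV

open Pool.Agent.N874.PP (Tup chA chB gq tau Ev)

/-- the quartic form as a product -/
lemma quart_Bp (p v θ C S : ℝ) (hv : v ≠ 0) (u : ℂ) :
    4 * ((Bp p v θ C S).x : ℂ) * u ^ 4 - 8 * ((Bp p v θ C S).y : ℂ) * u ^ 3 - 12 * ((Bp p v θ C S).c : ℂ) * u ^ 2
      + 4 * ((Bp p v θ C S).z : ℂ) * u + ((Bp p v θ C S).w : ℂ) =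
    ((u - p) ^ 2 + v ^ 2) * ((3 * θ + C) * (u - p) ^ 2 + 2 * S * v * (u - p) + (3 * θ - C) * v ^ 2) / v ^ 2 := by
  have hv' : (v : ℂ) ≠ 0 := by exact_mod_cast hv
  simp only [Bp]
  push_cast
  field_simp
  ring

theorem t_UNI : S_UNI := by
  intro p v θ C S p' v' θ' C' S' hv hv' hA hB
  have h1 := quart_Bp p v θ C S hv.ne' ((p : ℂ) + v * Complex.I)
  have h2 := quart_Bp p' v' θ' C' S' hv'.ne' ((p : ℂ) + v * Complex.I)
  rw [hB] at h1
  rw [h1] at h2
  have h3 : ((p : ℂ) + v * Complex.I - p) ^ 2 + v ^ 2 = 0 := by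
    have : (Complex.I) ^ 2 = -1 := Complex.I_sq
    ring_nf
    rw [this]
    ring
  rw [h3, zero_mul, zero_div] at h2
  have hv2 : ((v' : ℂ)) ^ 2 ≠ 0 := by
    have : (v' : ℂ) ≠ 0 := by exact_mod_cast hv'.ne'
    exact pow_ne_zero 2 this
  rw [eq_comm, div_eq_zero_iff] at h2
  rcases h2 with h2 | h2
  swap
  · exact absurd h2 hv2
  rcases mul_eq_zero.1 h2 with h4 | h4
  · have e1 : ((p : ℂ) + v * Complex.I - p') ^ 2 + v' ^ 2 =
        (((p - p') ^ 2 - v ^ 2 + v' ^ 2 : ℝ) : ℂ) + ((2 * v * (p - p') : ℝ) : ℂ) * Complex.I := by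
      have : (Complex.I) ^ 2 = -1 := Complex.I_sq
      push_cast
      ring_nf
      rw [this]
      ring
    rw [e1] at h4
    have hre := congrArg Complex.re h4
    have him := congrArg Complex.im h4
    simp only [Complex.add_re, Complex.add_im, Complex.mul_re, Complex.mul_im, Complex.ofReal_re, Complex.ofReal_im,
      Complex.I_re, Complex.I_im, Complex.zero_re, Complex.zero_im] at hre him
    have hp : p - p' = 0 := by
      have : v * (p - p') = 0 := by linarith
      rcases mul_eq_zero.1 this with h | h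
      · exact absurd h hv.ne'
      · exact h
    refine ⟨by linarith, ?_⟩
    rw [hp] at hre
    have h5 : v ^ 2 = v' ^ 2 := by linarith
    nlinarith
  · exfalso
    have e1 : (3 * (θ' : ℂ) + C') * ((p : ℂ) + v * Complex.I - p') ^ 2 + 2 * S' * v' * ((p : ℂ) + v * Complex.I - p') +
        (3 * θ' - C') * v' ^ 2 =
        (((3 * θ' + C') * ((p - p') ^ 2 - v ^ 2) + 2 * S' * v' * (p - p') + (3 * θ' - C') * v' ^ 2 : ℝ) : ℂ) +
        ((v * 2 * ((3 * θ' + C') * (p - p') + S' * v') : ℝ) : ℂ) * Complex.I := by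
      have : (Complex.I) ^ 2 = -1 := Complex.I_sq
      push_cast
      ring_nf
      rw [this]
      ring
    rw [e1] at h4
    have hre := congrArg Complex.re h4
    have him := congrArg Complex.im h4
    simp only [Complex.add_re, Complex.add_im, Complex.mul_re, Complex.mul_im, Complex.ofReal_re, Complex.ofReal_im,
      Complex.I_re, Complex.I_im, Complex.zero_re, Complex.zero_im] at hre him
    have him' : (3 * θ' + C') * (p - p') + S' * v' = 0 := by
      have : (v * 2) * ((3 * θ' + C') * (p - p') + S' * v') = 0 := by linarith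
      rcases mul_eq_zero.1 this with h | h
      · have := hv
        linarith
      · exact h
    rw [hB, chA_Bp _ _ _ _ _ hv'.ne'] at hA
    have h6 : (3 * θ' - C') * v' ^ 2 = (3 * θ' + C') * ((p - p') ^ 2 + v ^ 2) := by
      have h7 : S' * v' = -((3 * θ' + C') * (p - p')) := by linarith
      have h8 : 2 * S' * v' * (p - p') = -(2 * (3 * θ' + C') * (p - p') ^ 2) := by
        calc 2 * S' * v' * (p - p') = 2 * (S' * v') * (p - p') := by ring
          _ = _ := by rw [h7]; ring
      have h9 : (3 * θ' + C') * ((p - p') ^ 2 - v ^ 2) + 2 * S' * v' * (p - p') + (3 * θ' - C') * v' ^ 2 = 0 := by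
        linarith
      rw [h8] at h9
      nlinarith
    have h7 : v' ^ 2 * (S' ^ 2 + C' ^ 2 - 9 * θ' ^ 2) = -((3 * θ' + C') * v) ^ 2 := by
      have h8 : S' * v' = -((3 * θ' + C') * (p - p')) := by linarith
      calc v' ^ 2 * (S' ^ 2 + C' ^ 2 - 9 * θ' ^ 2) = (S' * v') ^ 2 - (3 * θ' + C') * ((3 * θ' - C') * v' ^ 2) := by ring
        _ = _ := by rw [h8, h6]; ring
    have h8 : 0 < v' ^ 2 * (S' ^ 2 + C' ^ 2 - 9 * θ' ^ 2) := by
      apply mul_pos (pow_pos hv' 2)
      nlinarith [sq_nonneg θ']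
    have h9 := sq_nonneg ((3 * θ' + C') * v)
    linarith

end Pool.Agent.L0h45.AV
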